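import Mathlib
import Pool.Agent.H71.Con5

namespace Pool.Agent.Results.MP_7217b8_al.Soluble

universe u

/-- a strict total order invariant under right multiplication -/
def IsRightOrder {G : Type u} [Group G] (r : G → G → Prop) : Prop :=
  IsStrictTotalOrder G r ∧ ∀ f g h, r f g → r (f * h) (g * h)

/-- there is a strict total order invariant under multiplication on both sides -/
def Orderable (G : Type u) [Group G] : Prop :=
  ∃ r : G → G → Prop, IsStrictTotalOrder G r ∧ ∀ f g h, r f g → r (h * f) (h * g) ∧ r (f * h) (g * h)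

/-- `1 < f < g` implies `f g^m f⁻¹ > g` for some positive `m` -/
def IsConrad {G : Type u} [Group G] (r : G → G → Prop) : Prop :=
  ∀ f g, r 1 f → r f g → ∃ m : ℕ, 0 < m ∧ r g (f * g ^ m * f⁻¹)

/-- every right order is a Conrad right order -/
def AllConrad (G : Type u) [Group G] : Prop :=
  ∀ r : G → G → Prop, IsRightOrder r → IsConrad r

theorem result (G : Type u) [Group G] [Group.IsSolvable G] (hO : Orderable G) (hC : AllConrad G)
    (K : Type u) [Group K] (Z : Subgroup K) [Z.Normal] (hZ : Z ≤ Subgroup.center K)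
    (e : K ⧸ Z ≃* G) : AllConrad K := by
  obtain ⟨r, h1, h2⟩ := hO
  intro s hs f g
  let π : K →* G := e.toMonoidHom.comp (QuotientGroup.mk' Z)
  obtain ⟨L, k1, k2⟩ := H71.Con.main h1 h2 (fun r a b => hC r ⟨a, b⟩) (S := {π f, π g})
    (Set.toFinite _)
  have : Group.IsNilpotent (L.comap π) := Subgroup.isNilpotent_of_ker_le_center
    ((π.comp (L.comap π).subtype).codRestrict L fun x => x.2) fun x hx =>
      Subgroup.mem_center_iff.2 fun y => Subtype.ext (Subgroup.mem_center_iff.1 (hZ
        ((QuotientGroup.eq_one_iff _).1 (e.map_eq_one_iff.1 (congrArg Subtype.val hx)))) y)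
  exact H71.Con.conrad_of_nil hs.1 hs.2 (L.comap π) (k1 (.inl rfl)) (k1 (.inr rfl))

end Pool.Agent.Results.MP_7217b8_al.Soluble
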